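import Mathlib
import Pool.Agent.Lib.MP_cbc3a4_lc.Core

set_option autoImplicit false

namespace Pool.Agent.Results.MP_cbc3a4_lc.CostSharing

open Finset

/-- An undirected multigraph on the vertex set `V` whose edges are indexed by `E`: the edge `e`
joins the two vertices `(ends e).1` and `(ends e).2`. Edges have nonnegative costs and are either
safe or unsafe. -/
structure FlexGraph (V E : Type) where
  ends : E → V × V
  cost : E → ℝ
  cost_nonneg : ∀ e, 0 ≤ cost e
  safe : Set E

variable {V E : Type}

/-- `δ_F(S)`: the edges of `F` with exactly one end in `S`. -/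
noncomputable def FlexGraph.boundary (G : FlexGraph V E) (F : Finset E) (S : Set V) : Finset E := by
  classical
  exact F.filter (fun e => ¬ ((G.ends e).1 ∈ S ↔ (G.ends e).2 ∈ S))

/-- the safe edges of `F` -/
noncomputable def FlexGraph.safeEdges (G : FlexGraph V E) (F : Finset E) : Finset E := by
  classical
  exact F.filter (fun e => e ∈ G.safe)

/-- `x` and `y` are `(p,q)`-flex-connected in `(V,F)`: every cut `δ_F(S)` that separates `x` from
`y` contains at least `p` safe edges or at least `p + q` edges. -/
def FlexGraph.FlexConnected (G : FlexGraph V E) (p q : ℕ) (F : Finset E) (x y : V) : Prop :=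
  ∀ S : Set V, x ∈ S → y ∉ S →
    p ≤ (G.safeEdges (G.boundary F S)).card ∨ p + q ≤ (G.boundary F S).card

/-- The map that sends every vertex of `A` to `r` and fixes all other vertices. -/
noncomputable def collapse (A : Set V) (r v : V) : V := by
  classical
  exact if v ∈ A then r else v

/-- The graph obtained by contracting all vertices of `A` into `r`: every end of an edge lying in
`A` is moved to `r`; costs and safe edges are kept. -/
noncomputable def FlexGraph.contract (G : FlexGraph V E) (A : Set V) (r : V) : FlexGraph V E where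
  ends e := (collapse A r (G.ends e).1, collapse A r (G.ends e).2)
  cost := G.cost
  cost_nonneg := G.cost_nonneg
  safe := G.safe

/-- `F` is feasible for the rooted `(p,q)`-Flex-Steiner instance with root `r` and terminals `T`. -/
def FlexGraph.Feasible (G : FlexGraph V E) (p q : ℕ) (r : V) (T : Finset V) (F : Finset E) : Prop :=
  ∀ t ∈ T, G.FlexConnected p q F t r

/-- The minimum cost of a feasible edge set. -/
noncomputable def FlexGraph.opt (G : FlexGraph V E) (p q : ℕ) (r : V) (T : Finset V) : ℝ :=
  sInf {x | ∃ F : Finset E, G.Feasible p q r T F ∧ x = ∑ e ∈ F, G.cost e}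

/-- `β_t`: the minimum cost of an edge set in which `t` is `(p,q)`-flex-connected to `r` after
all terminals other than `t` have been contracted into `r`. -/
noncomputable def FlexGraph.beta (G : FlexGraph V E) (p q : ℕ) (r : V) (T : Finset V) (t : V) : ℝ :=
  sInf {x | ∃ F : Finset E, (G.contract {v | v ∈ T ∧ v ≠ t} r).FlexConnected p q F t r ∧
    x = ∑ e ∈ F, G.cost e}

theorem mem_boundary {G : FlexGraph V E} {F : Finset E} {S : Set V} {e : E} :
    e ∈ G.boundary F S ↔ e ∈ F ∧ ¬ ((G.ends e).1 ∈ S ↔ (G.ends e).2 ∈ S) := by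
  classical
  unfold FlexGraph.boundary
  rw [mem_filter]

theorem collapse_of_mem {A : Set V} {r v : V} (h : v ∈ A) : collapse A r v = r := by
  simp [collapse, h]

theorem collapse_of_notMem {A : Set V} {r v : V} (h : v ∉ A) : collapse A r v = v := by
  simp [collapse, h]

/-- The infimum in the definition of `opt` is attained when there is a feasible edge set. -/
theorem opt_attained [Fintype E] (G : FlexGraph V E) (p q : ℕ) (r : V) (T : Finset V)
    (h : ∃ F, G.Feasible p q r T F) :
    ∃ F, G.Feasible p q r T F ∧ G.opt p q r T = ∑ e ∈ F, G.cost e := by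
  have hfin : {x | ∃ F : Finset E, G.Feasible p q r T F ∧ x = ∑ e ∈ F, G.cost e}.Finite :=
    (Set.finite_range (fun F : Finset E => ∑ e ∈ F, G.cost e)).subset (by
      rintro x ⟨F, _, rfl⟩
      exact ⟨F, rfl⟩)
  obtain ⟨F, hF⟩ := h
  have hne : {x | ∃ F : Finset E, G.Feasible p q r T F ∧ x = ∑ e ∈ F, G.cost e}.Nonempty :=
    ⟨_, F, hF, rfl⟩
  exact hne.csInf_mem hfin

theorem beta_le [Fintype E] (G : FlexGraph V E) (p q : ℕ) (r : V) (T : Finset V) (t : V)
    (F : Finset E) (hF : (G.contract {v | v ∈ T ∧ v ≠ t} r).FlexConnected p q F t r) :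
    G.beta p q r T t ≤ ∑ e ∈ F, G.cost e := by
  apply csInf_le
  · refine ⟨0, ?_⟩
    rintro x ⟨F', _, rfl⟩
    exact sum_nonneg (fun e _ => G.cost_nonneg e)
  · exact ⟨F, hF, rfl⟩

/-- A feasible edge set stays feasible after the contraction. -/
theorem flexConnected_contract (G : FlexGraph V E) (p q : ℕ) (r : V) (T : Finset V) (t : V)
    (F : Finset E) (hF : G.FlexConnected p q F t r) :
    (G.contract {v | v ∈ T ∧ v ≠ t} r).FlexConnected p q F t r := by
  intro S htS hrS
  have h1 : t ∈ {v | collapse {v | v ∈ T ∧ v ≠ t} r v ∈ S} := by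
    show collapse _ r t ∈ S
    rwa [collapse_of_notMem (fun h => h.2 rfl)]
  have h2 : r ∉ {v | collapse {v | v ∈ T ∧ v ≠ t} r v ∈ S} := by
    show ¬ collapse _ r r ∈ S
    by_cases h3 : r ∈ ({v | v ∈ T ∧ v ≠ t} : Set V)
    · rwa [collapse_of_mem h3]
    · rwa [collapse_of_notMem h3]
  have h4 : G.boundary F {v | collapse {v | v ∈ T ∧ v ≠ t} r v ∈ S} =
      (G.contract {v | v ∈ T ∧ v ≠ t} r).boundary F S := by
    ext e
    rw [mem_boundary, mem_boundary]
    rfl
  have h5 := hF _ h1 h2
  rw [h4] at h5
  exact h5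

/-- The infimum in the definition of `beta` is attained when there is a feasible edge set. -/
theorem beta_attained [Fintype E] (G : FlexGraph V E) (p q : ℕ) (r : V) (T : Finset V)
    (h : ∃ F, G.Feasible p q r T F) {t : V} (ht : t ∈ T) :
    ∃ F, (G.contract {v | v ∈ T ∧ v ≠ t} r).FlexConnected p q F t r ∧
      G.beta p q r T t = ∑ e ∈ F, G.cost e := by
  have hfin : {x | ∃ F : Finset E, (G.contract {v | v ∈ T ∧ v ≠ t} r).FlexConnected p q F t r ∧
      x = ∑ e ∈ F, G.cost e}.Finite :=
    (Set.finite_range (fun F : Finset E => ∑ e ∈ F, G.cost e)).subset (by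
      rintro x ⟨F, _, rfl⟩
      exact ⟨F, rfl⟩)
  obtain ⟨F, hF⟩ := h
  have hne : {x | ∃ F : Finset E, (G.contract {v | v ∈ T ∧ v ≠ t} r).FlexConnected p q F t r ∧
      x = ∑ e ∈ F, G.cost e}.Nonempty :=
    ⟨_, F, flexConnected_contract G p q r T t F (hF t ht), rfl⟩
  exact hne.csInf_mem hfin

open Pool.Agent.Lib.MP_cbc3a4_lc

theorem main (p q : ℕ) (V E : Type) [Fintype V] [Fintype E] (G : FlexGraph V E)
    (r : V) (T : Finset V) (F : Finset E) (hF : G.Feasible p q r T F) :
    ∑ t ∈ T, G.beta p q r T t ≤ (MM (p + q) : ℝ) * ∑ e ∈ F, G.cost e := by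
  classical
  set u : E → V := fun e => (G.ends e).1 with hu
  set w : E → V := fun e => (G.ends e).2 with hw
  let P : Finset E → Prop := fun X => p ≤ (G.safeEdges X).card ∨ p + q ≤ X.card
  have hmono : ∀ X Y : Finset E, X ⊆ Y → P X → P Y := by
    intro X Y hXY h
    rcases h with h | h
    · left
      refine h.trans (card_le_card ?_)
      exact filter_subset_filter _ hXY
    · exact Or.inr (h.trans (card_le_card hXY))
  have hD : ∀ X : Finset E, p + q ≤ X.card → P X := fun X h => Or.inr h
  obtain ⟨Fs, hFs, hsum⟩ := core (u := u) (w := w) (D := p + q) (P := P) hmono hD (F := F)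
    (Z := insert r T) (T := T.erase r) ((erase_subset _ _).trans (subset_insert _ _)) (by
      intro t ht S htS hSZ
      rw [mem_erase] at ht
      have hr : r ∉ S := by
        intro h
        exact disjoint_left.1 hSZ h (mem_erase.2 ⟨ht.1.symm, mem_insert_self _ _⟩)
      have h5 := hF t ht.2 (S : Set V) (mem_coe.2 htS) (fun h => hr (mem_coe.1 h))
      have h6 : G.boundary F (S : Set V) = cut u w F S := by
        ext e
        rw [mem_boundary, mem_cut, mem_coe, mem_coe]
      rw [h6] at h5
      exact h5) G.cost G.cost_nonneg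
  have hbeta : ∀ t ∈ T.erase r, G.beta p q r T t ≤ ∑ e ∈ Fs t, G.cost e := by
    intro t ht
    apply beta_le
    intro S htS hrS
    have ht' := mem_erase.1 ht
    set φ : V → V := collapse {v | v ∈ T ∧ v ≠ t} r with hφ
    let S' : Finset V := univ.filter (fun v => φ v ∈ S)
    have h1 : t ∈ S' := by
      have h5 : φ t = t := collapse_of_notMem (fun h => h.2 rfl)
      simp only [S', mem_filter, mem_univ, true_and, h5]
      exact htS
    have h2 : Disjoint S' ((insert r T).erase t) := by
      rw [disjoint_left]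
      intro z hz hzZ
      rw [mem_erase, mem_insert] at hzZ
      simp only [S', mem_filter, mem_univ, true_and] at hz
      apply hrS
      have h5 : φ z = r := by
        by_cases h3 : z ∈ ({v | v ∈ T ∧ v ≠ t} : Set V)
        · exact collapse_of_mem h3
        · rw [hφ, collapse_of_notMem h3]
          rcases hzZ.2 with h4 | h4
          · exact h4
          · exact absurd ⟨h4, hzZ.1⟩ h3
      rwa [h5] at hz
    have h3 := hFs t ht S' h1 h2
    have h4 : cut u w (Fs t) S' = (G.contract {v | v ∈ T ∧ v ≠ t} r).boundary (Fs t) S := by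
      ext e
      rw [mem_boundary, mem_cut]
      simp only [S', mem_filter, mem_univ, true_and]
      rfl
    rw [h4] at h3
    exact h3
  have hroot : r ∈ T → G.beta p q r T r ≤ 0 := by
    intro _
    have := beta_le G p q r T r ∅ (fun S h1 h2 => absurd h1 h2)
    simpa using this
  have h1 : ∑ t ∈ T, G.beta p q r T t ≤ ∑ t ∈ T.erase r, G.beta p q r T t := by
    by_cases hr : r ∈ T
    · rw [← add_sum_erase T _ hr]
      linarith [hroot hr]
    · rw [erase_eq_of_notMem hr]
  exact h1.trans ((sum_le_sum hbeta).trans hsum)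

/-- **Cost sharing for rooted flexible Steiner connectivity.** There is a function `f` such that
every rooted `(p,q)`-Flex-Steiner instance satisfies `∑_{t ∈ T} β_t ≤ f(p,q) OPT`; in fact `f(p,q)`
can be taken to be a function of `p + q`. -/
theorem result : ∃ h : ℕ → ℕ, ∀ (p q : ℕ) (V E : Type) [Fintype V] [Fintype E]
    (G : FlexGraph V E) (r : V) (T : Finset V), (∃ F : Finset E, G.Feasible p q r T F) →
      ∑ t ∈ T, G.beta p q r T t ≤ (h (p + q) : ℝ) * G.opt p q r T := by
  refine ⟨MM, ?_⟩
  intro p q V E _ _ G r T hex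
  obtain ⟨F, hF, hopt⟩ := opt_attained G p q r T hex
  rw [hopt]
  exact main p q V E G r T F hF

end Pool.Agent.Results.MP_cbc3a4_lc.CostSharing
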